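import Mathlib
import Pool.Agent.X199.NucFree

/-!
# Nuclearity of the free locally convex space over `ℕ ∪ {p}`
-/

open Topology Filter Set

namespace Pool.Agent.Results.MP_a34ed5_an.RapidPPoints

open Pool.Agent.X199.NucFree

/-- **Main theorem.**  Let `p ∈ βℕ \ ℕ` and `X = ℕ ∪ {p}`.  A free locally convex space `L(X)`
over `X` exists, and for every such space the following are equivalent: `L(X)` is nuclear;
`L(X)` is multi-Hilbert; `p` is a rapid P-point. -/
theorem result (p : Ultrafilter ℕ) (hp : ∀ n : ℕ, p ≠ pure n) :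
    (∃ (L : Type) (_ : AddCommGroup L) (_ : Module ℝ L) (_ : TopologicalSpace L)
      (δ : Xp p → L), IsFreeLCS (Xp p) L δ) ∧
    ∀ (L : Type) [AddCommGroup L] [Module ℝ L] [TopologicalSpace L] (δ : Xp p → L),
      IsFreeLCS (Xp p) L δ →
      (Nuclear L ↔ IsPPoint p ∧ IsRapid p) ∧ (MultiHilbert L ↔ IsPPoint p ∧ IsRapid p) := by
  refine ⟨exists_free _, ?_⟩
  intro L _ _ _ δ hL
  rw [← sumProp_iff hp]
  exact ⟨⟨sumProp_of_nuclear hL hp, nuclear_of_sumProp hL hp⟩,
    ⟨sumProp_of_multiHilbert hL hp, multiHilbert_of_sumProp hL hp⟩⟩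

end Pool.Agent.Results.MP_a34ed5_an.RapidPPoints
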